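import Pool.Agent.SP65.Pair

/-!
The split theorem: if the base polytope of `N` is cut by `x(G) = a` into the base polytopes of `N1` and `N2`, and triples of bases
of `N1`, `N2` with the same content are connected, then so are triples of bases of `N` (`tconn_split`).

Potential: `∑ k, max 0 (|B k ∩ G| - a)`.
-/

set_option autoImplicit false

namespace Pool.Agent.SP65

open Finset Pool.Agent.DT3 Pool.Agent.CF98 Pool.Agent.WD Pool.Agent.EX91

variable {α : Type*} [DecidableEq α]

/-- The total number of elements having `p` only depends on the content. -/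
theorem sum_filter {m : ℕ} {B D : Fin m → Finset α} (h : SameContent B D) (p : α → Prop)
    [DecidablePred p] :
    ∑ k, ((B k).filter p).card = ∑ k, ((D k).filter p).card := by
  have key : ∀ (U : Finset α) (C : Fin m → Finset α), (∀ k, C k ⊆ U) →
      ∑ k, ((C k).filter p).card =
        ∑ z ∈ U, if p z then (univ.filter (fun k => z ∈ C k)).card else 0 := by
    intro U C hC
    have h1 : ∀ k, ((C k).filter p).card = ∑ z ∈ U, if z ∈ C k ∧ p z then 1 else 0 := by
      intro k
      rw [← card_filter]
      congr 1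
      ext z
      rw [mem_filter, mem_filter]
      constructor
      · rintro ⟨h1, h2⟩
        exact ⟨hC k h1, h1, h2⟩
      · rintro ⟨-, h1, h2⟩
        exact ⟨h1, h2⟩
    rw [sum_congr rfl (fun k _ => h1 k), sum_comm]
    apply sum_congr rfl
    intro z _
    by_cases hz : p z
    · simp only [hz, and_true, if_true]
      rw [card_filter]
    · simp only [hz, and_false, if_false, sum_const_zero]
  rw [key (univ.biUnion B ∪ univ.biUnion D) B (fun k => (subset_biUnion_of_mem B
    (mem_univ k)).trans subset_union_left), key (univ.biUnion B ∪ univ.biUnion D) D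
    (fun k => (subset_biUnion_of_mem D (mem_univ k)).trans subset_union_right)]
  apply sum_congr rfl
  intro z _
  rw [h z]

theorem SameContent.trans' {m : ℕ} {B C D : Fin m → Finset α} (h : SameContent B C)
    (h' : SameContent C D) : SameContent B D := fun z => (h z).trans (h' z)

/-- Replace two of three sets. -/
def upd (B : Fin 3 → Finset α) (i j : Fin 3) (C1 C2 : Finset α) : Fin 3 → Finset α :=
  fun k => if k = i then C1 else if k = j then C2 else B k

theorem upd_content {B : Fin 3 → Finset α} {i j : Fin 3} (hij : i ≠ j) {C1 C2 : Finset α}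
    (h : SameContent ![B i, B j] ![C1, C2]) : SameContent B (upd B i j C1 C2) := by
  intro z
  have hz := h z
  rw [card_filter, card_filter, Fin.sum_univ_two, Fin.sum_univ_two] at hz
  rw [card_filter, card_filter, Fin.sum_univ_three, Fin.sum_univ_three]
  obtain ⟨φ, hφ⟩ : ∃ φ : Finset α → ℕ, ∀ S, (if z ∈ S then 1 else 0) = φ S := ⟨_, fun _ => rfl⟩
  simp only [hφ] at hz ⊢
  simp only [Matrix.cons_val_zero, Matrix.cons_val_one] at hz
  fin_cases i <;> fin_cases j <;> simp [upd] at hz hij ⊢ <;> omega

theorem third (i j : Fin 3) : ∃ k : Fin 3, k ≠ i ∧ k ≠ j := by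
  fin_cases i <;> fin_cases j <;> decide

/-- The potential. -/
def pot (p : α → Prop) [DecidablePred p] (a : ℕ) (B : Fin 3 → Finset α) : ℕ :=
  ∑ k, (((B k).filter p).card - a)

omit [DecidableEq α] in
theorem pot_upd {p : α → Prop} [DecidablePred p] {a : ℕ} {B : Fin 3 → Finset α} {i j : Fin 3}
    (hij : i ≠ j) {C1 C2 : Finset α}
    (h : ((C1.filter p).card - a) + ((C2.filter p).card - a) <
      (((B i).filter p).card - a) + (((B j).filter p).card - a)) :
    pot p a (upd B i j C1 C2) < pot p a B := by
  unfold pot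
  rw [Fin.sum_univ_three, Fin.sum_univ_three]
  fin_cases i <;> fin_cases j <;> simp [upd] at h hij ⊢ <;> omega

section

variable {N N1 N2 : Matroid α} {p : α → Prop} [DecidablePred p] {a : ℕ}

/-- Every triple is connected to one on one side. -/
theorem side
    (h1 : ∀ B : Finset α, N1.IsBase (B : Set α) ↔ N.IsBase (B : Set α) ∧ (B.filter p).card ≤ a)
    (h2 : ∀ B : Finset α, N2.IsBase (B : Set α) ↔ N.IsBase (B : Set α) ∧ a ≤ (B.filter p).card)
    (n : ℕ) : ∀ B : Fin 3 → Finset α, (∀ k, N.IsBase (B k : Set α)) → pot p a B ≤ n →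
      ∃ D : Fin 3 → Finset α,
        Relation.ReflTransGen (ShareStep (fun S : Finset α => N.IsBase (S : Set α))) B D ∧
        (∀ k, N.IsBase (D k : Set α)) ∧ SameContent B D ∧
        ((∀ k, ((D k).filter p).card ≤ a) ∨ ∀ k, a ≤ ((D k).filter p).card) := by
  induction n with
  | zero =>
    intro B hB hn
    refine ⟨B, Relation.ReflTransGen.refl, hB, fun _ => rfl, Or.inl ?_⟩
    intro k
    have h3 : ((B k).filter p).card - a ≤ pot p a B :=
      single_le_sum (f := fun k => ((B k).filter p).card - a) (fun _ _ => Nat.zero_le _) (mem_univ k)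
    omega
  | succ n ih =>
    intro B hB hn
    by_cases c1 : ∀ k, ((B k).filter p).card ≤ a
    · exact ⟨B, Relation.ReflTransGen.refl, hB, fun _ => rfl, Or.inl c1⟩
    by_cases c2 : ∀ k, a ≤ ((B k).filter p).card
    · exact ⟨B, Relation.ReflTransGen.refl, hB, fun _ => rfl, Or.inr c2⟩
    push Not at c1 c2
    obtain ⟨i, hi⟩ := c1
    obtain ⟨j, hj⟩ := c2
    have hij : i ≠ j := by
      rintro rfl
      omega
    have main : ∀ C1 C2 : Finset α, N.IsBase (C1 : Set α) → N.IsBase (C2 : Set α) →
        SameContent ![B i, B j] ![C1, C2] →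
        (((C1.filter p).card ≤ a ∧ (C2.filter p).card ≤ a) ∨
          (a ≤ (C1.filter p).card ∧ a ≤ (C2.filter p).card)) →
        ∃ D : Fin 3 → Finset α,
          Relation.ReflTransGen (ShareStep (fun S : Finset α => N.IsBase (S : Set α))) B D ∧
          (∀ k, N.IsBase (D k : Set α)) ∧ SameContent B D ∧
          ((∀ k, ((D k).filter p).card ≤ a) ∨ ∀ k, a ≤ ((D k).filter p).card) := by
      intro C1 C2 hC1 hC2 hc hside
      have hbu : ∀ k, N.IsBase ((upd B i j C1 C2 k : Finset α) : Set α) := by
        intro k
        unfold upd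
        split_ifs
        · exact hC1
        · exact hC2
        · exact hB k
      have hcu := upd_content hij hc
      have hsum := sum_filter hc p
      rw [Fin.sum_univ_two, Fin.sum_univ_two] at hsum
      simp only [Matrix.cons_val_zero, Matrix.cons_val_one] at hsum
      have hp := pot_upd (p := p) (a := a) (B := B) hij (C1 := C1) (C2 := C2) (by omega)
      obtain ⟨D, d1, d2, d3, d4⟩ := ih (upd B i j C1 C2) hbu (by omega)
      obtain ⟨k, hk1, hk2⟩ := third i j
      refine ⟨D, Relation.ReflTransGen.head ⟨hB, hbu, hcu, k, k, ?_⟩ d1, d2,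
        SameContent.trans' hcu d3, d4⟩
      unfold upd
      rw [if_neg hk1, if_neg hk2]
    by_cases hle : ((B i).filter p).card + ((B j).filter p).card ≤ 2 * a
    · obtain ⟨C1, C2, q1, q2, q3⟩ := pair h1 (hB i) (hB j) hle
      exact main C1 C2 ((h1 C1).1 q1).1 ((h1 C2).1 q2).1 q3
        (Or.inl ⟨((h1 C1).1 q1).2, ((h1 C2).1 q2).2⟩)
    · have hf : ∀ S : Finset α, N.IsBase (S : Set α) →
          (S.filter p).card + (S.filter (fun x => ¬ p x)).card = (B i).card := by
        intro S hS
        rw [card_filter_add_card_filter_not]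
        exact card_base hS (hB i)
      have hfi := hf _ (hB i)
      have hfj := hf _ (hB j)
      have h2' : ∀ S : Finset α, N2.IsBase (S : Set α) ↔ N.IsBase (S : Set α) ∧
          (S.filter (fun x => ¬ p x)).card ≤ (B i).card - a := by
        intro S
        rw [h2]
        constructor
        · rintro ⟨hS, hS'⟩
          have := hf S hS
          exact ⟨hS, by omega⟩
        · rintro ⟨hS, hS'⟩
          have := hf S hS
          exact ⟨hS, by omega⟩
      obtain ⟨C1, C2, q1, q2, q3⟩ := pair h2' (hB i) (hB j) (by omega)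
      exact main C1 C2 ((h2 C1).1 q1).1 ((h2 C2).1 q2).1 q3
        (Or.inr ⟨((h2 C1).1 q1).2, ((h2 C2).1 q2).2⟩)

end

theorem share_mono {N N1 : Matroid α}
    (h : ∀ B : Finset α, N1.IsBase (B : Set α) → N.IsBase (B : Set α)) {B D : Fin 3 → Finset α}
    (hc : Relation.ReflTransGen (ShareStep (fun S : Finset α => N1.IsBase (S : Set α))) B D) :
    Relation.ReflTransGen (ShareStep (fun S : Finset α => N.IsBase (S : Set α))) B D := by
  refine Relation.ReflTransGen.mono ?_ _ _ hc
  rintro P Q ⟨h1, h2, h3, h4⟩
  exact ⟨fun k => h _ (h1 k), fun k => h _ (h2 k), h3, h4⟩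

theorem share_symm {N : Matroid α} {B D : Fin 3 → Finset α}
    (hc : Relation.ReflTransGen (ShareStep (fun S : Finset α => N.IsBase (S : Set α))) B D) :
    Relation.ReflTransGen (ShareStep (fun S : Finset α => N.IsBase (S : Set α))) D B := by
  induction hc with
  | refl => exact Relation.ReflTransGen.refl
  | tail _ hs ih =>
    obtain ⟨h1, h2, h3, i, j, h4⟩ := hs
    exact Relation.ReflTransGen.head ⟨h2, h1, fun z => (h3 z).symm, j, i, h4.symm⟩ ih

/-- Splits: property version. -/
theorem tconn_split_prop {N N1 N2 : Matroid α} (p : α → Prop) [DecidablePred p] (a : ℕ)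
    (h1 : ∀ B : Finset α, N1.IsBase (B : Set α) ↔ N.IsBase (B : Set α) ∧ (B.filter p).card ≤ a)
    (h2 : ∀ B : Finset α, N2.IsBase (B : Set α) ↔ N.IsBase (B : Set α) ∧ a ≤ (B.filter p).card)
    (t1 : TConn N1) (t2 : TConn N2) : TConn N := by
  intro B D hB hD hBD
  obtain ⟨B', b1, b2, b3, b4⟩ := side h1 h2 _ B hB le_rfl
  obtain ⟨D', d1, d2, d3, d4⟩ := side h1 h2 _ D hD le_rfl
  have hc : SameContent B' D' := fun z => ((b3 z).symm.trans (hBD z)).trans (d3 z)
  have hsum := sum_filter hc p
  rw [Fin.sum_univ_three, Fin.sum_univ_three] at hsum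
  have hmid : Relation.ReflTransGen (ShareStep (fun S : Finset α => N.IsBase (S : Set α))) B' D' := by
    by_cases hall : (∀ k, ((B' k).filter p).card ≤ a) ∧ ∀ k, ((D' k).filter p).card ≤ a
    · exact share_mono (fun S hS => ((h1 S).1 hS).1)
        (t1 B' D' (fun k => (h1 _).2 ⟨b2 k, hall.1 k⟩) (fun k => (h1 _).2 ⟨d2 k, hall.2 k⟩) hc)
    · have hall2 : (∀ k, a ≤ ((B' k).filter p).card) ∧ ∀ k, a ≤ ((D' k).filter p).card := by
        rcases b4 with b4 | b4 <;> rcases d4 with d4 | d4
        · exact absurd ⟨b4, d4⟩ hall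
        · have := b4 0
          have := b4 1
          have := b4 2
          have := d4 0
          have := d4 1
          have := d4 2
          refine ⟨?_, d4⟩
          intro k
          fin_cases k
          · show a ≤ ((B' 0).filter p).card
            omega
          · show a ≤ ((B' 1).filter p).card
            omega
          · show a ≤ ((B' 2).filter p).card
            omega
        · have := b4 0
          have := b4 1
          have := b4 2
          have := d4 0
          have := d4 1
          have := d4 2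
          refine ⟨b4, ?_⟩
          intro k
          fin_cases k
          · show a ≤ ((D' 0).filter p).card
            omega
          · show a ≤ ((D' 1).filter p).card
            omega
          · show a ≤ ((D' 2).filter p).card
            omega
        · exact ⟨b4, d4⟩
      exact share_mono (fun S hS => ((h2 S).1 hS).1)
        (t2 B' D' (fun k => (h2 _).2 ⟨b2 k, hall2.1 k⟩) (fun k => (h2 _).2 ⟨d2 k, hall2.2 k⟩) hc)
  exact (b1.trans hmid).trans (share_symm d1)

/-- The split theorem. -/
theorem tconn_split {N N1 N2 : Matroid α} (G : Finset α) (a : ℕ)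
    (h1 : ∀ B : Finset α, N1.IsBase (B : Set α) ↔ N.IsBase (B : Set α) ∧ (B ∩ G).card ≤ a)
    (h2 : ∀ B : Finset α, N2.IsBase (B : Set α) ↔ N.IsBase (B : Set α) ∧ a ≤ (B ∩ G).card)
    (t1 : TConn N1) (t2 : TConn N2) : TConn N := by
  have e : ∀ B : Finset α, B ∩ G = B.filter (fun x => x ∈ G) := fun B =>
    (filter_mem_eq_inter).symm
  refine tconn_split_prop (fun x => x ∈ G) a ?_ ?_ t1 t2
  · intro B
    rw [← e B]
    exact h1 B
  · intro B
    rw [← e B]
    exact h2 B

end Pool.Agent.SP65
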