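import Pool.Agent.EX18.SixDefs

/-!
A minor isomorphic to `U_{1,2} ⊕ U_{1,2} ⊕ U_{2,2}` gives, by contraction of one element, a minor isomorphic to
`U_{0,1} ⊕ U_{1,2} ⊕ U_{2,2}`.
-/

set_option autoImplicit false

namespace Pool.Agent.EX18

open scoped Matroid

variable {α : Type*}

/-- `M` has a minor isomorphic to `U_{0,1} ⊕ U_{1,2} ⊕ U_{2,2}`: a minor on five elements `l, b, b', z, w` whose bases are
`{b, z, w}` and `{b', z, w}`. -/
def HasSplitSixMinor (M : Matroid α) : Prop :=
  ∃ (N : Matroid α) (l b b' z w : α), N ≤m M ∧ [l, b, b', z, w].Nodup ∧ N.E = {l, b, b', z, w} ∧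
    ∀ B : Set α, N.IsBase B ↔ B = {b, z, w} ∨ B = {b', z, w}

theorem HasSixMinor.split {M : Matroid α} (h : HasSixMinor M) : HasSplitSixMinor M := by
  obtain ⟨N, a, a', b, b', z, w, hN, hnd, hE, hB⟩ := h
  simp only [List.nodup_cons, List.mem_cons, List.not_mem_nil, not_or, or_false,
    not_false_eq_true, List.nodup_nil, and_true] at hnd
  obtain ⟨⟨haa, hab, hab', haz, haw⟩, ⟨ha'b, ha'b', ha'z, ha'w⟩, ⟨hbb, hbz, hbw⟩,
    ⟨hb'z, hb'w⟩, hzw⟩ := hnd
  have haI : N.Indep {a} := by
    have h1 : N.IsBase {a, b, z, w} := (hB _).2 ⟨a, b, Or.inl rfl, Or.inl rfl, rfl⟩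
    exact h1.indep.subset (by simp)
  refine ⟨N ／ {a}, a', b, b', z, w, Matroid.IsMinor.trans (show N ／ {a} ≤m N from ⟨{a}, ∅, by rw [Matroid.delete_empty]⟩) hN, ?_, ?_, ?_⟩
  · simp only [List.nodup_cons, List.mem_cons, List.not_mem_nil, not_or, or_false, not_false_eq_true,
      List.nodup_nil, and_true]
    exact ⟨⟨ha'b, ha'b', ha'z, ha'w⟩, ⟨hbb, hbz, hbw⟩, ⟨hb'z, hb'w⟩, hzw⟩
  · rw [Matroid.contract_ground, hE]
    ext t
    simp only [Set.mem_sdiff, Set.mem_insert_iff, Set.mem_singleton_iff]
    constructor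
    · rintro ⟨h1, h2⟩
      tauto
    · rintro (rfl | rfl | rfl | rfl | rfl)
      · exact ⟨by tauto, fun h => haa h.symm⟩
      · exact ⟨by tauto, fun h => hab h.symm⟩
      · exact ⟨by tauto, fun h => hab' h.symm⟩
      · exact ⟨by tauto, fun h => haz h.symm⟩
      · exact ⟨by tauto, fun h => haw h.symm⟩
  · intro B
    rw [haI.contract_isBase_iff, hB]
    have key : ∀ y, (y = b ∨ y = b') → a ∉ ({y, z, w} : Set α) := by
      rintro y (rfl | rfl)
      · simp only [Set.mem_insert_iff, Set.mem_singleton_iff, not_or]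
        exact ⟨hab, haz, haw⟩
      · simp only [Set.mem_insert_iff, Set.mem_singleton_iff, not_or]
        exact ⟨hab', haz, haw⟩
    have un : ∀ y : α, ({y, z, w} : Set α) ∪ {a} = {a, y, z, w} := by
      intro y
      rw [Set.union_comm]
      rfl
    constructor
    · rintro ⟨⟨x, y, hx, hy, hxy⟩, hd⟩
      have haB : a ∉ B := fun h => Set.disjoint_left.1 hd h (Set.mem_singleton _)
      have hxa : x = a := by
        have h1 : a ∈ ({x, y, z, w} : Set α) := by
          rw [← hxy]
          exact Set.mem_union_right _ (Set.mem_singleton _)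
        simp only [Set.mem_insert_iff, Set.mem_singleton_iff] at h1
        rcases h1 with h1 | h1 | h1 | h1
        · exact h1.symm
        · exfalso
          rcases hy with rfl | rfl
          · exact hab h1
          · exact hab' h1
        · exact absurd h1 haz
        · exact absurd h1 haw
      have hBy : B = {y, z, w} := by
        have h1 : (B ∪ {a}) \ {a} = B := by
          ext t
          simp only [Set.mem_sdiff, Set.mem_union, Set.mem_singleton_iff]
          constructor
          · tauto
          · intro ht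
            exact ⟨Or.inl ht, fun h => haB (h ▸ ht)⟩
        have h2 : ({x, y, z, w} : Set α) \ {a} = {y, z, w} := by
          rw [hxa, ← un y]
          ext t
          simp only [Set.mem_sdiff, Set.mem_union, Set.mem_insert_iff, Set.mem_singleton_iff]
          have h3 := key y hy
          simp only [Set.mem_insert_iff, Set.mem_singleton_iff, not_or] at h3
          constructor
          · tauto
          · rintro (rfl | rfl | rfl)
            · exact ⟨by tauto, fun h => h3.1 h.symm⟩
            · exact ⟨by tauto, fun h => h3.2.1 h.symm⟩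
            · exact ⟨by tauto, fun h => h3.2.2 h.symm⟩
        rw [← h1, hxy, h2]
      rcases hy with rfl | rfl
      · exact Or.inl hBy
      · exact Or.inr hBy
    · rintro (rfl | rfl)
      · refine ⟨⟨a, b, Or.inl rfl, Or.inl rfl, un b⟩, ?_⟩
        rw [Set.disjoint_singleton_right]
        exact key b (Or.inl rfl)
      · refine ⟨⟨a, b', Or.inl rfl, Or.inr rfl, un b'⟩, ?_⟩
        rw [Set.disjoint_singleton_right]
        exact key b' (Or.inr rfl)

/-- No minor `U_{0,1} ⊕ U_{1,2} ⊕ U_{2,2}`: no minor `U_{1,2} ⊕ U_{1,2} ⊕ U_{2,2}`. -/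
theorem not_six_of_splitSix {M : Matroid α} (h : ¬ HasSplitSixMinor M) : ¬ HasSixMinor M :=
  fun h1 => h h1.split

end Pool.Agent.EX18
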