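import Pool.Agent.EX91.Fin

/-!
Splits of the base polytope: the pair lemma.

`N` matroid, `p` a property of elements, `a : ℕ`, `N1` the matroid whose bases are the bases of `N` with at most `a` elements
having `p`.  Two bases `B1`, `B2` of `N` with together at most `2 a` elements having `p` have the same content as two bases of `N1`.

* `exch`: if the base `C` has fewer elements with `q` than the base `B` then some exchange `C - e + g` with `¬ q e`, `q g` is a base.
* `edm`: `|B1 ∩ A| + |B2 ∩ A| ≤ 2 |C ∩ A|` for some base `C` of `N1`: `C` with `|C ∩ A|` largest and then `|C ∩ G|` smallest.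
* `pair`: matroid union for two copies of `N1` (`CF98.two_parts`).
-/

set_option autoImplicit false

namespace Pool.Agent.SP65

open Finset Pool.Agent.DT3 Pool.Agent.CF98 Pool.Agent.WD Pool.Agent.EX91

variable {α : Type*} [DecidableEq α]

theorem card_exch {C : Finset α} {e g : α} (he : e ∈ C) (hg : g ∉ C) (p : α → Prop)
    [DecidablePred p] :
    ((insert g (C.erase e)).filter p).card + (if p e then 1 else 0) =
      (C.filter p).card + (if p g then 1 else 0) := by
  rw [card_filter, card_filter, sum_insert (fun h => hg (mem_of_mem_erase h)), add_assoc,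
    sum_erase_add _ _ he, add_comm]

theorem exch {N : Matroid α} {C B : Finset α} (hC : N.IsBase (C : Set α))
    (hB : N.IsBase (B : Set α)) (p : α → Prop) [DecidablePred p]
    (h : (C.filter p).card < (B.filter p).card) :
    ∃ e ∈ C, ∃ g, g ∉ C ∧ ¬ p e ∧ p g ∧
      N.IsBase ((insert g (C.erase e) : Finset α) : Set α) := by
  have hI : N.Indep ((C.filter p : Finset α) : Set α) :=
    hC.indep.subset (Finset.coe_subset.2 (filter_subset _ _))
  have hJ : N.Indep ((B.filter p : Finset α) : Set α) :=
    hB.indep.subset (Finset.coe_subset.2 (filter_subset _ _))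
  obtain ⟨g, hg, hgi⟩ := hI.augment hJ (by
    rw [Set.encard_coe_eq_coe_finsetCard, Set.encard_coe_eq_coe_finsetCard]
    exact_mod_cast h)
  have hg1 : g ∈ B.filter p := by simpa using hg.1
  have hpg : p g := (mem_filter.1 hg1).2
  have hgC : g ∉ C := by
    intro h'
    apply hg.2
    rw [Finset.mem_coe, mem_filter]
    exact ⟨h', hpg⟩
  obtain ⟨D, hD, hD1, hD2⟩ := hgi.exists_isBase_subset_union_isBase hC
  have hDs : D ⊆ ((insert g C : Finset α) : Set α) := by
    intro x hx
    have := hD2 hx
    simp only [Set.mem_union, Set.mem_insert_iff, Finset.mem_coe, mem_filter] at this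
    rw [Finset.mem_coe, mem_insert]
    rcases this with (h' | h') | h'
    · exact Or.inl h'
    · exact Or.inr h'.1
    · exact Or.inr h'
  have hDf : D.Finite := (insert g C : Finset α).finite_toSet.subset hDs
  obtain ⟨D', rfl⟩ : ∃ D' : Finset α, (D' : Set α) = D := ⟨hDf.toFinset, hDf.coe_toFinset⟩
  rw [Finset.coe_subset] at hDs
  have hcard : D'.card = C.card := by
    have h2 := hD.encard_eq_encard_of_isBase hC
    rw [Set.encard_coe_eq_coe_finsetCard, Set.encard_coe_eq_coe_finsetCard] at h2
    exact_mod_cast h2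
  have hne : (insert g C \ D').Nonempty := by
    rw [← card_pos, card_sdiff_of_subset hDs, card_insert_of_notMem hgC, hcard]
    omega
  obtain ⟨e, he⟩ := hne
  rw [mem_sdiff, mem_insert] at he
  have hgD : g ∈ D' := by
    have := hD1 (Set.mem_insert _ _)
    simpa using this
  have heg : e ≠ g := by
    rintro rfl
    exact he.2 hgD
  have heC : e ∈ C := he.1.resolve_left heg
  have hpe : ¬ p e := by
    intro h'
    apply he.2
    have := hD1 (Set.mem_insert_of_mem g (Finset.mem_coe.2 (mem_filter.2 ⟨heC, h'⟩)))
    simpa using this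
  refine ⟨e, heC, g, hgC, hpe, hpg, ?_⟩
  have hEq : D' = insert g (C.erase e) := by
    apply eq_of_subset_of_card_le
    · intro x hx
      have h2 := hDs hx
      rw [mem_insert] at h2
      rw [mem_insert, mem_erase]
      rcases h2 with h2 | h2
      · exact Or.inl h2
      · refine Or.inr ⟨?_, h2⟩
        rintro rfl
        exact he.2 hx
    · rw [card_insert_of_notMem (fun h' => hgC (mem_of_mem_erase h')), card_erase_of_mem heC, hcard]
      have : 0 < C.card := card_pos.2 ⟨e, heC⟩
      omega
  rw [← hEq]
  exact hD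

omit [DecidableEq α] in
theorem card_base {N : Matroid α} {C B : Finset α} (hC : N.IsBase (C : Set α))
    (hB : N.IsBase (B : Set α)) : C.card = B.card := by
  have h2 := hC.encard_eq_encard_of_isBase hB
  rw [Set.encard_coe_eq_coe_finsetCard, Set.encard_coe_eq_coe_finsetCard] at h2
  exact_mod_cast h2

/-- Edmonds' condition. -/
theorem edm {N N1 : Matroid α} {p : α → Prop} [DecidablePred p] {a : ℕ}
    (h1 : ∀ B : Finset α, N1.IsBase (B : Set α) ↔ N.IsBase (B : Set α) ∧ (B.filter p).card ≤ a)
    {B1 B2 : Finset α} (hB1 : N.IsBase (B1 : Set α)) (hB2 : N.IsBase (B2 : Set α))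
    (hs : (B1.filter p).card + (B2.filter p).card ≤ 2 * a) (q : α → Prop) [DecidablePred q] :
    ∃ C : Finset α, N1.IsBase (C : Set α) ∧
      (B1.filter q).card + (B2.filter q).card ≤ 2 * (C.filter q).card := by
  have hne : ∃ C : Finset α, N1.IsBase (C : Set α) := by
    by_cases h : (B1.filter p).card ≤ a
    · exact ⟨B1, (h1 B1).2 ⟨hB1, h⟩⟩
    · exact ⟨B2, (h1 B2).2 ⟨hB2, by omega⟩⟩
  let n := B1.card
  let Φ : Finset α → ℕ := fun C =>
    (n + 1) * (n - (C.filter q).card) + (C.filter p).card
  obtain ⟨C, hC, hmin⟩ := WellFounded.has_min (InvImage.wf Φ Nat.lt_wfRel.wf)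
    {C : Finset α | N1.IsBase (C : Set α)} hne
  have hC' : N1.IsBase (C : Set α) := hC
  have hCN := ((h1 C).1 hC').1
  have hCa := ((h1 C).1 hC').2
  have hcn : C.card = n := card_base hCN hB1
  have hcq : (C.filter q).card ≤ n := hcn ▸ card_filter_le C q
  have hcp : (C.filter p).card ≤ n := hcn ▸ card_filter_le C p
  -- the exchange step
  have hex : ∀ e ∈ C, ∀ g, g ∉ C → N.IsBase ((insert g (C.erase e) : Finset α) : Set α) →
      ((q g ∧ ¬ q e ∧ ((C.filter p).card < a ∨ ¬ p g ∨ p e)) ∨
        ((q e → q g) ∧ ¬ p g ∧ p e)) → False := by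
    intro e he g hg hb hcond
    have c1 := card_exch he hg q
    have c2 := card_exch he hg p
    have hB' : N1.IsBase ((insert g (C.erase e) : Finset α) : Set α) := by
      rw [h1]
      refine ⟨hb, ?_⟩
      rcases hcond with ⟨-, -, h | h | h⟩ | ⟨-, h, -⟩
      · split_ifs at c2 <;> omega
      · rw [if_neg h] at c2
        omega
      · rw [if_pos h] at c2
        split_ifs at c2 <;> omega
      · rw [if_neg h] at c2
        omega
    have hlt := hmin _ hB'
    have hcn' : (insert g (C.erase e)).card = n := card_base hb hB1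
    have hcq' : ((insert g (C.erase e)).filter q).card ≤ n := hcn' ▸ card_filter_le _ q
    have hcp' : ((insert g (C.erase e)).filter p).card ≤ n := hcn' ▸ card_filter_le _ p
    apply hlt
    show (n + 1) * (n - ((insert g (C.erase e)).filter q).card) +
        ((insert g (C.erase e)).filter p).card <
      (n + 1) * (n - (C.filter q).card) + (C.filter p).card
    rcases hcond with ⟨hqg, hqe, -⟩ | ⟨hqq, hpg, hpe⟩
    · rw [if_neg hqe, if_pos hqg] at c1
      obtain ⟨t, ht⟩ : ∃ t, n - (C.filter q).card = t + 1 := ⟨n - (C.filter q).card - 1, by omega⟩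
      have ht' : n - ((insert g (C.erase e)).filter q).card = t := by omega
      rw [ht, ht', Nat.mul_succ]
      omega
    · rw [if_pos hpe, if_neg hpg] at c2
      have hq' : n - ((insert g (C.erase e)).filter q).card ≤ n - (C.filter q).card := by
        by_cases hqe : q e
        · rw [if_pos hqe, if_pos (hqq hqe)] at c1
          omega
        · rw [if_neg hqe] at c1
          split_ifs at c1 <;> omega
      have := Nat.mul_le_mul_left (n + 1) hq'
      omega
  refine ⟨C, hC', ?_⟩
  by_cases hlt : (C.filter p).card < a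
  · have hle : ∀ B : Finset α, N.IsBase (B : Set α) → (B.filter q).card ≤ (C.filter q).card := by
      intro B hB
      by_contra hcon
      obtain ⟨e, he, g, hg, h3, h4, h5⟩ := exch hCN hB q (not_le.1 hcon)
      exact hex e he g hg h5 (Or.inl ⟨h4, h3, Or.inl hlt⟩)
    have := hle B1 hB1
    have := hle B2 hB2
    omega
  · have hCa' : (C.filter p).card = a := by omega
    have key : ∀ B : Finset α, N.IsBase (B : Set α) →
        (B.filter q).card + a ≤ (C.filter q).card + (B.filter p).card := by
      intro B hB
      have k1 : (B.filter (fun x => q x ∧ ¬ p x)).card ≤ (C.filter (fun x => q x ∧ ¬ p x)).card := by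
        by_contra hcon
        obtain ⟨e, he, g, hg, h3, h4, h5⟩ := exch hCN hB (fun x => q x ∧ ¬ p x) (not_le.1 hcon)
        by_cases hqe : q e
        · have hpe : p e := by
            by_contra hpe
            exact h3 ⟨hqe, hpe⟩
          exact hex e he g hg h5 (Or.inr ⟨fun _ => h4.1, h4.2, hpe⟩)
        · exact hex e he g hg h5 (Or.inl ⟨h4.1, hqe, Or.inr (Or.inl h4.2)⟩)
      have k2 : (B.filter (fun x => ¬ (p x ∧ ¬ q x))).card ≤
          (C.filter (fun x => ¬ (p x ∧ ¬ q x))).card := by
        by_contra hcon
        obtain ⟨e, he, g, hg, h3, h4, h5⟩ := exch hCN hB (fun x => ¬ (p x ∧ ¬ q x)) (not_le.1 hcon)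
        rw [not_not] at h3
        by_cases hqg : q g
        · exact hex e he g hg h5 (Or.inl ⟨hqg, h3.2, Or.inr (Or.inr h3.1)⟩)
        · have hpg : ¬ p g := fun hpg => h4 ⟨hpg, hqg⟩
          exact hex e he g hg h5 (Or.inr ⟨fun hq => absurd hq h3.2, hpg, h3.1⟩)
      have hb : B.card = C.card := card_base hB hCN
      have s1 : ∀ D : Finset α, (D.filter (fun x => ¬ (p x ∧ ¬ q x))).card +
          (D.filter (fun x => p x ∧ ¬ q x)).card = D.card := by
        intro D
        rw [add_comm]
        exact card_filter_add_card_filter_not (s := D) (fun x => p x ∧ ¬ q x)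
      have s2 : ∀ D : Finset α, (D.filter q).card =
          (D.filter (fun x => q x ∧ ¬ p x)).card + (D.filter (fun x => q x ∧ p x)).card := by
        intro D
        rw [add_comm, ← filter_filter, ← filter_filter]
        exact (card_filter_add_card_filter_not (s := D.filter q) p).symm
      have s3 : ∀ D : Finset α, (D.filter p).card =
          (D.filter (fun x => p x ∧ ¬ q x)).card + (D.filter (fun x => q x ∧ p x)).card := by
        intro D
        have e1 : D.filter (fun x => q x ∧ p x) = D.filter (fun x => p x ∧ q x) := by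
          apply filter_congr
          intro x _
          exact and_comm
        rw [e1, add_comm, ← filter_filter, ← filter_filter]
        exact (card_filter_add_card_filter_not (s := D.filter p) q).symm
      have := s1 B
      have := s1 C
      have := s2 B
      have := s2 C
      have := s3 B
      have := s3 C
      omega
    have := key B1 hB1
    have := key B2 hB2
    omega

omit [DecidableEq α] in
private theorem Pair_coe (M : Matroid α) (Y : Finset α) :
    ((rkFn M Y : ℕ) : ℕ∞) = M.eRk (Y : Set α) := by
  unfold rkFn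
  apply ENat.natCast_toNat
  have h1 := M.eRk_le_encard (Y : Set α)
  have h2 : (Y : Set α).encard ≠ ⊤ := by
    rw [Set.encard_ne_top_iff]
    exact Y.finite_toSet
  exact ne_top_of_le_ne_top h2 h1

/-- Two bases of `N` with together at most `2 a` elements having `p` have the same content as two bases of `N1`. -/
theorem pair {N N1 : Matroid α} {p : α → Prop} [DecidablePred p] {a : ℕ}
    (h1 : ∀ B : Finset α, N1.IsBase (B : Set α) ↔ N.IsBase (B : Set α) ∧ (B.filter p).card ≤ a)
    {B1 B2 : Finset α} (hB1 : N.IsBase (B1 : Set α)) (hB2 : N.IsBase (B2 : Set α))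
    (hs : (B1.filter p).card + (B2.filter p).card ≤ 2 * a) :
    ∃ C1 C2 : Finset α, N1.IsBase (C1 : Set α) ∧ N1.IsBase (C2 : Set α) ∧
      SameContent ![B1, B2] ![C1, C2] := by
  obtain ⟨P, p1, p2, p3, -⟩ := exists_lift (![B1, B2] : Fin 2 → Finset α)
  have hd : Disjoint (P 0) (P 1) := p3 (by decide)
  have i0 : (P 0).image Prod.fst = B1 := p1 0
  have i1 : (P 1).image Prod.fst = B2 := p1 1
  have c0 : (P 0).card = B1.card := by
    rw [← i0]
    exact (card_image_iff.2 (p2 0)).symm
  have c1 : (P 1).card = B1.card := by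
    rw [card_base hB1 hB2, ← i1]
    exact (card_image_iff.2 (p2 1)).symm
  obtain ⟨C0, hC0, -⟩ := edm h1 hB1 hB2 hs p
  have hf : N1.eRank = ((B1.card : ℕ) : ℕ∞) := by
    rw [← hC0.encard_eq_eRank, Set.encard_coe_eq_coe_finsetCard, card_base ((h1 C0).1 hC0).1 hB1]
  have hD : (P 0 ∪ P 1).card = 2 * B1.card := by
    rw [card_union_of_disjoint hd, c0, c1]
    omega
  have h2 : Two (rr N1) (P 0 ∪ P 1) := by
    intro X hX
    have hX1 : X.card = (X ∩ P 0).card + (X ∩ P 1).card := by
      rw [← card_union_of_disjoint (hd.mono inter_subset_right inter_subset_right),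
        ← inter_union_distrib_left, inter_eq_left.2 hX]
    obtain ⟨C, hC, hle⟩ := edm h1 hB1 hB2 hs (fun x => x ∈ X.image Prod.fst)
    have hk : ∀ k, (X ∩ P k).card ≤
        (((![B1, B2] : Fin 2 → Finset α) k).filter (fun x => x ∈ X.image Prod.fst)).card := by
      intro k
      rw [← p1 k, ← card_image_of_injOn ((p2 k).mono (Finset.coe_subset.2 inter_subset_right))]
      apply card_le_card
      intro x hx
      rw [mem_image] at hx
      obtain ⟨y, hy, rfl⟩ := hx
      rw [mem_inter] at hy
      rw [mem_filter]
      exact ⟨mem_image_of_mem _ hy.2, mem_image_of_mem _ hy.1⟩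
    have hk0 := hk 0
    have hk1 := hk 1
    have hr : (C.filter (fun x => x ∈ X.image Prod.fst)).card ≤ rr N1 X := by
      have h3 : (((C.filter (fun x => x ∈ X.image Prod.fst)).card : ℕ) : ℕ∞) ≤
          ((rkFn N1 (X.image Prod.fst) : ℕ) : ℕ∞) := by
        rw [Pair_coe, ← Set.encard_coe_eq_coe_finsetCard]
        apply Matroid.Indep.encard_le_eRk_of_subset
        · exact hC.indep.subset (Finset.coe_subset.2 (filter_subset _ _))
        · intro x hx
          exact (mem_filter.1 (Finset.mem_coe.1 hx)).2
      exact_mod_cast h3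
    simp only [Matrix.cons_val_zero, Matrix.cons_val_one] at hk0 hk1
    omega
  obtain ⟨Q, hQ, q1, q2⟩ := two_parts (rr_rank N1) hD h2 (by
    intro X _
    have h3 : ((rkFn N1 (X.image Prod.fst) : ℕ) : ℕ∞) ≤ ((B1.card : ℕ) : ℕ∞) := by
      rw [Pair_coe, ← hf]
      exact N1.eRk_le_eRank _
    exact_mod_cast h3)
  rw [bs_iff hf] at q1 q2
  refine ⟨_, _, q1.1, q2.1, ?_⟩
  have h4 := content_of_union (P := P) (Q := ![Q, (P 0 ∪ P 1) \ Q]) p2 (by
      intro k
      fin_cases k
      · exact q1.2
      · exact q2.2) p3 (by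
      intro i j hij
      fin_cases i <;> fin_cases j
      · exact absurd rfl hij
      · exact disjoint_sdiff
      · exact sdiff_disjoint
      · exact absurd rfl hij) (by
      intro z
      constructor
      · rintro ⟨k, hk⟩
        by_cases hz : z ∈ Q
        · exact ⟨0, hz⟩
        · refine ⟨1, mem_sdiff.2 ⟨?_, hz⟩⟩
          rw [mem_union]
          fin_cases k
          · exact Or.inl hk
          · exact Or.inr hk
      · rintro ⟨k, hk⟩
        have : z ∈ P 0 ∪ P 1 := by
          fin_cases k
          · exact hQ hk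
          · exact (mem_sdiff.1 hk).1
        rcases mem_union.1 this with h | h
        · exact ⟨0, h⟩
        · exact ⟨1, h⟩)
  have e1 : (fun k => (P k).image Prod.fst) = ![B1, B2] := funext p1
  have e2 : (fun k => ((![Q, (P 0 ∪ P 1) \ Q] : Fin 2 → Finset (α × ℕ)) k).image Prod.fst) =
      ![Q.image Prod.fst, ((P 0 ∪ P 1) \ Q).image Prod.fst] := by
    funext k
    fin_cases k <;> rfl
  rw [e1, e2] at h4
  exact h4

end Pool.Agent.SP65
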